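import Mathlib
import Pool.Agent.H395.Sowing

namespace Pool.Agent.Results.MP_58e104_co.MultiplesOfUp

open Pool.Agent.H395.Sowing

/-- **MP_58e104_co, Q1, the set `A`.** For every `n` the explicit Sowing position `upPos n`
(`n` widely spaced copies of `1303`) has value `n·↑`, the sum of `n` copies of `↑ = {0 | *}`.
So `A` contains every positive integer. -/
theorem result (n : ℕ) :
    IsPosition (upPos n) ∧ HasValue (upPos n) (copies n up) :=
  upPos_value n

end Pool.Agent.Results.MP_58e104_co.MultiplesOfUp
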