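import Mathlib
import Pool.Agent.H395.Sowing

namespace Pool.Agent.Results.MP_58e104_co.TinyValues

open Pool.Agent.H395.Sowing

/-- **MP_58e104_co, Q1, the set `B`.** For every `n ≥ 1` the explicit Sowing position `tinyPos n`,
the row `F (01)^n F F 3` with three full pots `F`, has value tiny-`n`, that is `{0 || 0 | -n}`.
So `B` contains every positive integer. -/
theorem result (n : ℕ) (hn : 1 ≤ n) :
    IsPosition (tinyPos n) ∧ HasValue (tinyPos n) (tiny n) := by
  obtain ⟨m, rfl⟩ : ∃ m, n = m + 1 := ⟨n - 1, by omega⟩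
  exact ⟨tinyPos_isPosition _, tinyPos_value m⟩

end Pool.Agent.Results.MP_58e104_co.TinyValues
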